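import Pool.Agent.Q94.EBA

/-!
MP_209e83_co, Q1.  The type B Eulerian transformation `z_n = ∑_k B_{n,k} x_k` preserves
log-convexity.
-/

set_option autoImplicit false

namespace Pool.Agent.Results.MP_209e83_co.TypeBEulerianLogConvex

/-- A signed permutation of `[n] = {1, …, n}`: a permutation `σ` of the `n` letters (numbered from
`0`) and a choice of signs (`true` is minus); `w(i) = ± (σ(i))`, `w(-i) = -w(i)`. -/
abbrev SignedPerm (n : ℕ) := Equiv.Perm (Fin n) × (Fin n → Bool)

/-- the value `w(i)` for `1 ≤ i ≤ n`, and `w(0) = 0` -/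
def value {n : ℕ} (w : SignedPerm n) (i : ℕ) : ℤ :=
  if h : 0 < i ∧ i ≤ n then
    (if w.2 ⟨i - 1, by omega⟩ then -((w.1 ⟨i - 1, by omega⟩ : ℕ) + 1 : ℤ)
      else ((w.1 ⟨i - 1, by omega⟩ : ℕ) + 1 : ℤ))
  else 0

/-- the number of type B descents: the `i ∈ {0, …, n-1}` with `w(i) > w(i+1)` -/
def descents {n : ℕ} (w : SignedPerm n) : ℕ :=
  ((Finset.range n).filter (fun i => value w i > value w (i + 1))).card

/-- the type B Eulerian number `B_{n,k}` -/
def B (n k : ℕ) : ℕ :=
  ((Finset.univ : Finset (SignedPerm n)).filter (fun w => descents w = k)).card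

/-- a log-convex sequence of nonnegative reals -/
def LogConvex (x : ℕ → ℝ) : Prop := (∀ k, 0 ≤ x k) ∧ ∀ k, x (k + 1) ^ 2 ≤ x k * x (k + 2)

/-- the type B Eulerian transformation -/
noncomputable def transform (x : ℕ → ℝ) (n : ℕ) : ℝ :=
  ∑ k ∈ Finset.range (n + 1), (B n k : ℝ) * x k

theorem descents_eq {n : ℕ} (w : SignedPerm n) : descents w = Q94.EB.desB w := by
  unfold descents Q94.EB.desB Q94.EB.dn
  rw [Finset.card_filter]
  rfl

theorem descents_le {n : ℕ} (w : SignedPerm n) : descents w ≤ n := by
  unfold descents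
  exact (Finset.card_filter_le _ _).trans (by rw [Finset.card_range])

theorem transform_eq (x : ℕ → ℝ) (n : ℕ) :
    transform x n = ∑ w : SignedPerm n, x (descents w) := by
  unfold transform B
  have h := Finset.sum_fiberwise_of_maps_to (s := (Finset.univ : Finset (SignedPerm n)))
    (t := Finset.range (n + 1)) (g := descents)
    (fun w _ => Finset.mem_range.mpr (Nat.lt_succ_of_le (descents_le w)))
    (fun w => x (descents w))
  rw [← h]
  apply Finset.sum_congr rfl
  intro k _
  rw [Finset.sum_congr rfl (g := fun _ => x k)]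
  · rw [Finset.sum_const, nsmul_eq_mul]
  · intro w hw
    rw [(Finset.mem_filter.mp hw).2]

/-- the functional recurrence -/
theorem sum_succ (n : ℕ) (g : ℕ → ℝ) :
    ∑ w : SignedPerm (n + 1), g (descents w) =
      ∑ w : SignedPerm n, ((2 * (descents w : ℝ) + 1) * g (descents w) +
        (2 * n - 2 * (descents w : ℝ) + 1) * g (descents w + 1)) := by
  have h := Q94.EB.sum_desB n g
  simp only [descents_eq]
  exact h

/-- **MP_209e83_co, Q1.** The type B Eulerian transformation preserves log-convexity. -/
theorem result : ∀ x : ℕ → ℝ, LogConvex x → LogConvex (transform x) := by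
  intro x hx
  obtain ⟨hx0, hlc⟩ := hx
  refine ⟨?_, ?_⟩
  · intro n
    unfold transform
    exact Finset.sum_nonneg (fun k _ => mul_nonneg (Nat.cast_nonneg _) (hx0 k))
  intro n
  rw [transform_eq x n, transform_eq x (n + 1), transform_eq x (n + 2)]
  have e1 := sum_succ n x
  have e2 : ∑ w : SignedPerm (n + 2), x (descents w) =
      ∑ w : SignedPerm n,
        ((2 * (descents w : ℝ) + 1) * ((2 * (descents w : ℝ) + 1) * x (descents w) +
          (2 * n - 2 * (descents w : ℝ) + 3) * x (descents w + 1)) +
        (2 * n - 2 * (descents w : ℝ) + 1) * ((2 * (descents w : ℝ) + 3) * x (descents w + 1) +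
          (2 * n - 2 * (descents w : ℝ) + 1) * x (descents w + 2))) := by
    rw [sum_succ (n + 1) x]
    have h := sum_succ n (fun k => (2 * (k : ℝ) + 1) * x k +
      (2 * ((n + 1 : ℕ) : ℝ) - 2 * (k : ℝ) + 1) * x (k + 1))
    rw [h]
    apply Finset.sum_congr rfl
    intro w _
    push_cast
    ring
  rw [e1, e2]
  apply Finset.sum_sq_le_sum_mul_sum_of_sq_le_mul
  · intro w _
    exact hx0 _
  · intro w _
    have hd : (descents w : ℝ) ≤ n := by exact_mod_cast descents_le w
    have h0 := hx0 (descents w)
    have h1 := hx0 (descents w + 1)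
    have h2 := hx0 (descents w + 2)
    have hk0 : (0 : ℝ) ≤ descents w := Nat.cast_nonneg _
    have hq : (0 : ℝ) ≤ 2 * n - 2 * (descents w : ℝ) + 1 := by linarith
    have hq1 : (0 : ℝ) ≤ 2 * n - 2 * (descents w : ℝ) + 3 := by linarith
    positivity
  · intro w _
    have hd : (descents w : ℝ) ≤ n := by exact_mod_cast descents_le w
    have h0 := hx0 (descents w)
    have h1 := hx0 (descents w + 1)
    have hc := hlc (descents w)
    generalize (descents w : ℝ) = d at hd
    have hn0 : (0 : ℝ) ≤ n := Nat.cast_nonneg _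
    have e : x (descents w) * ((2 * d + 1) * ((2 * d + 1) * x (descents w) +
          (2 * n - 2 * d + 3) * x (descents w + 1)) +
        (2 * n - 2 * d + 1) * ((2 * d + 3) * x (descents w + 1) +
          (2 * n - 2 * d + 1) * x (descents w + 2))) -
        ((2 * d + 1) * x (descents w) + (2 * n - 2 * d + 1) * x (descents w + 1)) ^ 2 =
        4 * (n + 1) * (x (descents w) * x (descents w + 1)) +
        (2 * n - 2 * d + 1) ^ 2 * (x (descents w) * x (descents w + 2) - x (descents w + 1) ^ 2) := by
      ring
    have p1 : 0 ≤ 4 * ((n : ℝ) + 1) * (x (descents w) * x (descents w + 1)) := by positivity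
    have p2 : 0 ≤ (2 * n - 2 * d + 1) ^ 2 *
        (x (descents w) * x (descents w + 2) - x (descents w + 1) ^ 2) :=
      mul_nonneg (sq_nonneg _) (by linarith)
    linarith

end Pool.Agent.Results.MP_209e83_co.TypeBEulerianLogConvex
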